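import Mathlib
import Pool.Agent.R463.One
import Pool.Agent.Y640.FM.Totient
import Pool.Agent.Y879.GL.Pattern

set_option autoImplicit false

/-!
# The gap laws for almost primes between `n ^ 2` and `n ^ 2 + 1 + φ(n)`

Sifting by the primes up to a small power of `n`: in the interval `(n ^ 2, n ^ 2 + 1 + φ(n)]`, and in all its
parts of length at least `n ^ θ`, the remaining integers (which include all the primes) have the expected
number and follow each other as in a Poisson process.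
-/

namespace Pool.Agent.Results.MP_36c81c_nt.GapLaws

open Finset Filter
open Pool.Agent.R463.PS

/-- `m` has no prime factor `p ≤ X ^ (1 / r)` -/
def Good (X r m : ℕ) : Prop := ∀ p : ℕ, p.Prime → (p : ℝ) ≤ (X : ℝ) ^ (1 / (r : ℝ)) → ¬ p ∣ m

/-- the density: the product of `1 - 1 / p` over the primes `p ≤ X ^ (1 / r)` -/
noncomputable def V (X r : ℕ) : ℝ :=
  ∏ p ∈ (Icc 1 ⌊(X : ℝ) ^ (1 / (r : ℝ))⌋₊).filter Nat.Prime, (1 - 1 / (p : ℝ))

lemma good_iff (X r m : ℕ) : Good X r m ↔ Sifted idf X r m := (idf_sift X r m).symm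

lemma V_eq (X r : ℕ) : V X r = V1 X r := rfl

/-- the primes `p > X` are good -/
lemma good_prime {X r p : ℕ} (hX : 1 ≤ X) (hr : 1 ≤ r) (hp : p.Prime) (hXp : X < p) : Good X r p := by
  intro q hq hqX hd
  have h1 : q = p := (Nat.prime_dvd_prime_iff_eq hq hp).1 hd
  have hX1 : (1 : ℝ) ≤ X := by exact_mod_cast hX
  have hr1 : (1 : ℝ) ≤ r := by exact_mod_cast hr
  have h2 : (X : ℝ) ^ (1 / (r : ℝ)) ≤ X := by
    calc (X : ℝ) ^ (1 / (r : ℝ)) ≤ (X : ℝ) ^ (1 : ℝ) :=
          Real.rpow_le_rpow_of_exponent_le hX1 (by rw [div_le_one (by linarith)]; exact hr1)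
      _ = X := Real.rpow_one _
  have h3 : (q : ℝ) ≤ X := hqX.trans h2
  have h4 : q ≤ X := by exact_mod_cast h3
  omega

/-- good integers up to `X ^ 3` have at most `3 r` prime factors -/
lemma good_few {X r m : ℕ} (hX : 2 ≤ X) (hr : 1 ≤ r) (hm : m ≠ 0) (hmX : m ≤ X ^ 3) (h : Good X r m) :
    m.primeFactorsList.length ≤ 3 * r := by
  have hX1 : (1 : ℝ) < X := by exact_mod_cast (by omega : 1 < X)
  have hr1 : (0 : ℝ) < r := by exact_mod_cast (by omega : 0 < r)
  refine Pool.Agent.Y879.GL.few_of_rough ((X : ℝ) ^ (1 / (r : ℝ))) (Real.one_lt_rpow hX1 (by positivity)) m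
    (3 * r) hm ?_ (fun q hq hqm => ?_)
  · rw [← Real.rpow_natCast, ← Real.rpow_mul (by positivity)]
    have e : 1 / (r : ℝ) * ((3 * r : ℕ) : ℝ) = ((3 : ℕ) : ℝ) := by
      push_cast
      field_simp
    rw [e, Real.rpow_natCast]
    exact_mod_cast hmX
  · by_contra hcon
    push Not at hcon
    exact h q hq hcon hqm

open Classical in
/-- the number of the good `m` in `(Z, Z + Y]` for which fewer than `l` of the integers in `[m - T, m)`
are good -/
noncomputable def Far (X r l T Z Y : ℕ) : ℕ :=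
  ((Ioc Z (Z + Y)).filter (fun m => Good X r m ∧
    ((Ico (m - T) m).filter (fun n => Good X r n)).card < l)).card

lemma Far_eq (X r l T Z Y : ℕ) : Far X r l T Z Y = Pool.Agent.R463.PS.Far idf X r l T Z Y := by
  classical
  unfold Far Pool.Agent.R463.PS.Far
  congr 1
  apply filter_congr
  intro m _
  rw [good_iff]
  have : (Ico (m - T) m).filter (fun n => Good X r n) = (Ico (m - T) m).filter (fun n => Sifted idf X r n) :=
    filter_congr fun n _ => good_iff X r n
  rw [this]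


/-- a lower bound for the totient -/
lemma le_two_phi (n : ℕ) : n ≤ 2 * Nat.totient n ^ 2 := Pool.Agent.Y640.FM.le_totient n

lemma phi_large {n : ℕ} (hn : 64 ≤ n) {t : ℝ} (_ht : 0 ≤ t) (ht2 : t ≤ 1 / 3) :
    (n : ℝ) ^ t ≤ ((1 + Nat.totient n : ℕ) : ℝ) := by
  have h1 : (n : ℝ) ≤ 2 * (Nat.totient n : ℝ) ^ 2 := by exact_mod_cast le_two_phi n
  have hn1 : (1 : ℝ) ≤ n := by exact_mod_cast (by omega : 1 ≤ n)
  have hn0 : (0 : ℝ) < n := by linarith
  set u : ℝ := (n : ℝ) ^ ((1 : ℝ) / 3) with hu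
  have hu3 : u ^ 3 = n := by
    rw [hu, ← Real.rpow_natCast, ← Real.rpow_mul hn0.le]
    norm_num
  have hu0 : 0 ≤ u := Real.rpow_nonneg hn0.le _
  have hu2 : 2 ≤ u := by
    by_contra hcon
    push Not at hcon
    have h2 : u ^ 3 < 2 ^ 3 := pow_lt_pow_left₀ hcon hu0 (by norm_num)
    rw [hu3] at h2
    have h3 : (64 : ℝ) ≤ n := by exact_mod_cast hn
    linarith
  have h4 : u ^ 2 ≤ (Nat.totient n : ℝ) ^ 2 := by
    have h5 : 2 * u ^ 2 ≤ u ^ 3 := by nlinarith [sq_nonneg u]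
    rw [hu3] at h5
    linarith
  have h6 : u ≤ (Nat.totient n : ℝ) := (pow_le_pow_iff_left₀ hu0 (Nat.cast_nonneg _) two_ne_zero).1 h4
  have h7 : (n : ℝ) ^ t ≤ u := Real.rpow_le_rpow_of_exponent_le hn1 ht2
  push_cast
  linarith

open Classical in
/-- **The gap laws between `n ^ 2` and `n ^ 2 + 1 + φ(n)`.** Let `0 < θ`, `ε > 0`, `l₀`, `x₀`. There is `r₀`
such that for all `r ≥ r₀` and all large `n`:
(1) every prime `p > n` is good, and every good `m ≤ n ^ 2 + n` (`m > 0`) has at most `3 r` prime factors;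
(2) the number of the good integers in `(n ^ 2, n ^ 2 + 1 + φ(n)]` is `(1 + φ(n)) V`, up to
`ε (1 + φ(n)) V`;
(3) in every interval `(Z, Z + Y]` with `Y ≥ n ^ θ`, for instance in all the parts of that length of
`(n ^ 2, n ^ 2 + 1 + φ(n)]`, the number `Far` of the good `m` with fewer than `l` good integers in `[m - T, m)`
is the value `Y V ∑_{j < l} exp (- T V) (T V) ^ j / j!` for the Poisson process of density `V`, up to `ε Y V`,
for all `l ≤ l₀` and all `T`, and for all `l` and all `T ≤ x₀ / V`. -/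
theorem result (θ : ℝ) (hθ : 0 < θ) (l₀ : ℕ) (x₀ ε : ℝ) (hε : 0 < ε) :
    ∃ r₀ : ℕ, ∀ r : ℕ, r₀ ≤ r → ∀ᶠ n : ℕ in atTop,
      ((∀ p : ℕ, p.Prime → n < p → Good n r p) ∧
        ∀ m : ℕ, m ≠ 0 → m ≤ n ^ 2 + n → Good n r m → m.primeFactorsList.length ≤ 3 * r) ∧
      |(({m ∈ Ioc (n ^ 2) (n ^ 2 + (1 + Nat.totient n)) | Good n r m}.card : ℕ) : ℝ) -
          (1 + Nat.totient n : ℕ) * V n r| ≤ ε * ((1 + Nat.totient n : ℕ) * V n r) ∧
      ∀ Z Y : ℕ, (n : ℝ) ^ θ ≤ Y → ∀ l T : ℕ, (l ≤ l₀ ∨ T * V n r ≤ x₀) →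
        |(Far n r l T Z Y : ℝ) - Y * V n r *
          ∑ j ∈ range l, Real.exp (-(T * V n r)) * (T * V n r) ^ j / j.factorial| ≤
          ε * (Y * V n r) := by
  classical
  obtain ⟨r₀, hr₀, h⟩ := one_gaps (min θ (1 / 3)) (lt_min hθ (by norm_num)) (max l₀ 1) x₀ ε hε
  refine ⟨r₀, fun r hr => ?_⟩
  filter_upwards [h r hr, eventually_ge_atTop 64] with n h1 h2
  have hn1 : (1 : ℝ) ≤ n := by exact_mod_cast (by omega : 1 ≤ n)
  refine ⟨⟨fun p hp hnp => good_prime (by omega) (by omega) hp hnp, fun m hm hmn hg =>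
    good_few (by omega) (by omega) hm (hmn.trans ?_) hg⟩, ?_, ?_⟩
  · nlinarith [Nat.mul_le_mul_left n h2, Nat.mul_le_mul_left (n ^ 2) h2]
  · have h3 := h1 (n ^ 2) (1 + Nat.totient n)
      (phi_large h2 (le_min hθ.le (by norm_num)) (min_le_right _ _)) 1 0 (Or.inl (le_max_right _ _))
    rw [← V_eq, ← Far_eq] at h3
    have e1 : Far n r 1 0 (n ^ 2) (1 + Nat.totient n) =
        {m ∈ Ioc (n ^ 2) (n ^ 2 + (1 + Nat.totient n)) | Good n r m}.card := by
      unfold Far
      congr 1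
      apply filter_congr
      intro m _
      simp
    rw [e1] at h3
    simpa using h3
  · intro Z Y hY l T hT
    have h3 := h1 Z Y ((Real.rpow_le_rpow_of_exponent_le hn1 (min_le_left _ _)).trans hY) l T
      (hT.imp (fun h => h.trans (le_max_left _ _)) (fun h => h))
    rwa [← V_eq, ← Far_eq] at h3

end Pool.Agent.Results.MP_36c81c_nt.GapLaws
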