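import Mathlib
import Pool.Agent.R463.NarLin
import Pool.Agent.Y640.FM.Totient

set_option autoImplicit false

/-!
# Narrow progressions in arbitrary sets of primes between `n ^ 2` and `n ^ 2 + 1 + φ(n)`

Almost all elements of every set of primes or almost primes in `(n ^ 2, n ^ 2 + 1 + φ(n)]` lie in narrow
arithmetic progressions inside the set and the interval.
-/

namespace Pool.Agent.Results.MP_36c81c_nt.NarrowProgressions

open Finset Filter

/-- The integers all prime factors of which are larger than `m ^ (1 / r)`. -/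
def RoughAt (r : ℕ) : Set ℕ := {m | ∀ p : ℕ, p.Prime → p ∣ m → (m : ℝ) ^ (1 / (r : ℝ)) < (p : ℝ)}

/-- `m` is a term of an `l`-term arithmetic progression with difference at most `D`, all terms of which
are elements of `A` in the interval `(a, b]`. -/
def InProgression (A : Set ℕ) (l : ℕ) (D : ℝ) (a b m : ℕ) : Prop :=
  ∃ u d : ℕ, 1 ≤ d ∧ (d : ℝ) ≤ D ∧ (∀ i < l, u + i * d ∈ A ∧ a < u + i * d ∧ u + i * d ≤ b) ∧
    ∃ i < l, m = u + i * d

lemma InProgression.mono {A : Set ℕ} {l : ℕ} {D D' : ℝ} {a b m : ℕ} (h : InProgression A l D a b m)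
    (hD : D ≤ D') : InProgression A l D' a b m := by
  obtain ⟨u, d, h1, h2, h3⟩ := h
  exact ⟨u, d, h1, h2.trans hD, h3⟩

/-- all primes are in `RoughAt r` -/
lemma prime_mem (r : ℕ) (hr : 2 ≤ r) (q : ℕ) (hq : q.Prime) : q ∈ RoughAt r := by
  intro p hp hd
  have h1 : p = q := (Nat.prime_dvd_prime_iff_eq hp hq).1 hd
  have h2 : (1 : ℝ) < q := by exact_mod_cast hq.one_lt
  have hr2 : (2 : ℝ) ≤ r := by exact_mod_cast hr
  rw [h1]
  have h5 : (1 / (r : ℝ)) < 1 := by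
    rw [div_lt_one (by linarith)]
    linarith
  have := Real.rpow_lt_rpow_of_exponent_lt h2 h5
  rwa [Real.rpow_one] at this

open Classical in
/-- the general theorem for the form `m` -/
lemma narrow (θ : ℝ) (hθ : 0 < θ) (r : ℕ) (hr : 2 ≤ r) (l : ℕ) (hl : 2 ≤ l) (ε : ℝ) (hε : 0 < ε) :
    ∃ B : ℕ, ∀ᶠ X : ℕ in atTop, ∀ Y : ℕ, (X : ℝ) ^ θ ≤ Y → Y ≤ X →
      ∀ A : Set ℕ, A ⊆ RoughAt r →
        (((Ioc X (X + Y)).filter (fun m : ℕ =>
          m ∈ A ∧ ¬ InProgression A l (Real.log X ^ B) X (X + Y) m)).card : ℝ) ≤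
        ε * (Y / Real.log X) := by
  obtain ⟨B, hB⟩ := Pool.Agent.R463.NL.narrow_lin one_pos (fun _ : Fin 1 => 1) (fun _ => 0) (fun _ => one_pos)
    (fun _ => by rw [Nat.cast_one]; exact isCoprime_one_left) (fun i j _ _ => Subsingleton.elim i j) (fun p hp => ⟨1, fun _ h => by
      have h1 : (p : ℤ) ∣ ((1 : ℕ) : ℤ) := by simpa using h
      exact hp.one_lt.ne' (Nat.dvd_one.1 (Int.natCast_dvd_natCast.1 h1))⟩) θ hθ r hr l hl ε hε
  refine ⟨B, ?_⟩
  filter_upwards [hB] with X hX Y hXY hYX A hA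
  have h := hX Y hXY hYX A (fun m hm => by
    intro i p hp hd
    refine hA hm p hp ?_
    have h1 : (p : ℤ) ∣ (m : ℤ) := by simpa using hd
    exact_mod_cast h1)
  rw [pow_one] at h
  exact h


/-- a lower bound for the totient -/
lemma le_two_phi (n : ℕ) : n ≤ 2 * Nat.totient n ^ 2 := Pool.Agent.Y640.FM.le_totient n

lemma phi_large {n : ℕ} (hn : 64 ≤ n) {t : ℝ} (_ht : 0 ≤ t) (ht2 : t ≤ 1 / 3) :
    (n : ℝ) ^ t ≤ ((1 + Nat.totient n : ℕ) : ℝ) := by
  have h1 : (n : ℝ) ≤ 2 * (Nat.totient n : ℝ) ^ 2 := by exact_mod_cast le_two_phi n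
  have hn1 : (1 : ℝ) ≤ n := by exact_mod_cast (by omega : 1 ≤ n)
  have hn0 : (0 : ℝ) < n := by linarith
  set u : ℝ := (n : ℝ) ^ ((1 : ℝ) / 3) with hu
  have hu3 : u ^ 3 = n := by
    rw [hu, ← Real.rpow_natCast, ← Real.rpow_mul hn0.le]
    norm_num
  have hu0 : 0 ≤ u := Real.rpow_nonneg hn0.le _
  have hu2 : 2 ≤ u := by
    by_contra hcon
    push Not at hcon
    have h2 : u ^ 3 < 2 ^ 3 := pow_lt_pow_left₀ hcon hu0 (by norm_num)
    rw [hu3] at h2
    have h3 : (64 : ℝ) ≤ n := by exact_mod_cast hn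
    linarith
  have h4 : u ^ 2 ≤ (Nat.totient n : ℝ) ^ 2 := by
    have h5 : 2 * u ^ 2 ≤ u ^ 3 := by nlinarith [sq_nonneg u]
    rw [hu3] at h5
    linarith
  have h6 : u ≤ (Nat.totient n : ℝ) := (pow_le_pow_iff_left₀ hu0 (Nat.cast_nonneg _) two_ne_zero).1 h4
  have h7 : (n : ℝ) ^ t ≤ u := Real.rpow_le_rpow_of_exponent_le hn1 ht2
  push_cast
  linarith

open Classical in
/-- **Narrow progressions between `n ^ 2` and `n ^ 2 + 1 + φ(n)`.** (1) All primes belong to `RoughAt r`, for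
`r ≥ 2`. (2) Let `r, l ≥ 2` and `ε > 0`. There is `B` such that for all large `n` and for EVERY set `A` of
integers `m` without prime factor `≤ m ^ (1 / r)`, for instance every set of primes: all but at most
`ε (1 + φ(n)) / log n` of the elements of `A` in `(n ^ 2, n ^ 2 + 1 + φ(n)]` are terms of `l`-term arithmetic
progressions, contained in the part of `A` in `(n ^ 2, n ^ 2 + 1 + φ(n)]`, with difference at most
`(log n) ^ B`. -/
theorem result : (∀ r : ℕ, 2 ≤ r → ∀ q : ℕ, q.Prime → q ∈ RoughAt r) ∧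
    ∀ r : ℕ, 2 ≤ r → ∀ l : ℕ, 2 ≤ l → ∀ ε : ℝ, 0 < ε → ∃ B : ℕ, ∀ᶠ n : ℕ in atTop,
      ∀ A : Set ℕ, A ⊆ RoughAt r →
        (((Ioc (n ^ 2) (n ^ 2 + (1 + Nat.totient n))).filter (fun m : ℕ =>
          m ∈ A ∧ ¬ InProgression A l (Real.log n ^ B) (n ^ 2) (n ^ 2 + (1 + Nat.totient n)) m)).card : ℝ) ≤
        ε * ((1 + Nat.totient n : ℕ) / Real.log n) := by
  refine ⟨prime_mem, fun r hr l hl ε hε => ?_⟩
  obtain ⟨B, hB⟩ := narrow (1 / 6) (by norm_num) r hr l hl ε hε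
  refine ⟨2 * B, ?_⟩
  rw [eventually_atTop] at hB
  obtain ⟨X₀, hX₀⟩ := hB
  have hlog : ∀ᶠ n : ℕ in atTop, (2 : ℝ) ≤ Real.log n :=
    (Real.tendsto_log_atTop.comp tendsto_natCast_atTop_atTop).eventually_ge_atTop 2
  filter_upwards [hlog, eventually_ge_atTop (max X₀ 64)] with n h1 h2 A hA
  have hn2 : 64 ≤ n := (le_max_right _ _).trans h2
  have hnX : X₀ ≤ n := (le_max_left _ _).trans h2
  have h3 : 2 * n ≤ n ^ 2 := by nlinarith
  set Y : ℕ := 1 + Nat.totient n with hY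
  have hYn : Y ≤ n := by
    have := Nat.totient_lt n (by omega)
    omega
  have hn0 : (0 : ℝ) < n := by exact_mod_cast (by omega : 0 < n)
  have hZ0 : (0 : ℝ) < ((n ^ 2 : ℕ) : ℝ) := by positivity
  have hnZ' : (n : ℝ) ≤ ((n ^ 2 : ℕ) : ℝ) := by exact_mod_cast (by omega : n ≤ n ^ 2)
  have hlogn : Real.log n ≤ Real.log ((n ^ 2 : ℕ) : ℝ) := Real.log_le_log hn0 hnZ'
  have hlogZ : Real.log ((n ^ 2 : ℕ) : ℝ) = 2 * Real.log n := by
    push_cast
    rw [Real.log_pow]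
    norm_num
  have h5 := hX₀ (n ^ 2) (by omega) Y (by
    have e : ((n ^ 2 : ℕ) : ℝ) ^ ((1 : ℝ) / 6) = (n : ℝ) ^ ((1 : ℝ) / 3) := by
      push_cast
      rw [← Real.rpow_natCast, ← Real.rpow_mul hn0.le]
      norm_num
    rw [e]
    exact phi_large hn2 (by norm_num) le_rfl) (by omega) A hA
  have h6 : Real.log ((n ^ 2 : ℕ) : ℝ) ^ B ≤ Real.log n ^ (2 * B) := by
    have h7 : Real.log ((n ^ 2 : ℕ) : ℝ) ≤ Real.log n ^ 2 := by
      rw [hlogZ]
      nlinarith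
    calc Real.log ((n ^ 2 : ℕ) : ℝ) ^ B ≤ (Real.log n ^ 2) ^ B := pow_le_pow_left₀ (by linarith) h7 B
      _ = Real.log n ^ (2 * B) := by rw [pow_mul]
  have h8 : (((Ioc (n ^ 2) (n ^ 2 + Y)).filter (fun m : ℕ =>
          m ∈ A ∧ ¬ InProgression A l (Real.log n ^ (2 * B)) (n ^ 2) (n ^ 2 + Y) m)).card : ℝ) ≤
      (((Ioc (n ^ 2) (n ^ 2 + Y)).filter (fun m : ℕ =>
          m ∈ A ∧ ¬ InProgression A l (Real.log ((n ^ 2 : ℕ) : ℝ) ^ B) (n ^ 2) (n ^ 2 + Y) m)).card : ℝ) := by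
    exact_mod_cast card_le_card (fun m hm => by
      rw [mem_filter] at hm ⊢
      exact ⟨hm.1, hm.2.1, fun h => hm.2.2 (h.mono h6)⟩)
  refine h8.trans (h5.trans ?_)
  apply mul_le_mul_of_nonneg_left _ hε.le
  exact div_le_div_of_nonneg_left (Nat.cast_nonneg _) (by linarith) hlogn

end Pool.Agent.Results.MP_36c81c_nt.NarrowProgressions
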