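import Mathlib
import Pool.Agent.R463.One
import Pool.Agent.Y640.FM.Totient
import Pool.Agent.Y879.GL.Pattern

set_option autoImplicit false

/-!
# Regular points of arbitrary sets of primes or almost primes between `n ^ 2` and `n ^ 2 + 1 + φ(n)`

In `(n ^ 2, n ^ 2 + 1 + φ(n)]` almost all elements of EVERY set of primes, or of integers without prime
factor up to a small power of `n`, see the set in all windows around them with the right order of magnitude,
and at all scales with few exceptions with a constant density on both sides.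
-/

namespace Pool.Agent.Results.MP_36c81c_nt.RegularPoints

open Finset Filter
open Pool.Agent.R463.PS

/-- `m` has no prime factor `p ≤ X ^ (1 / r)` -/
def Good (X r m : ℕ) : Prop := ∀ p : ℕ, p.Prime → (p : ℝ) ≤ (X : ℝ) ^ (1 / (r : ℝ)) → ¬ p ∣ m

/-- the density: the product of `1 - 1 / p` over the primes `p ≤ X ^ (1 / r)` -/
noncomputable def V (X r : ℕ) : ℝ :=
  ∏ p ∈ (Icc 1 ⌊(X : ℝ) ^ (1 / (r : ℝ))⌋₊).filter Nat.Prime, (1 - 1 / (p : ℝ))

lemma good_iff (X r m : ℕ) : Good X r m ↔ Sifted idf X r m := (idf_sift X r m).symm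

lemma V_eq (X r : ℕ) : V X r = V1 X r := rfl

/-- the primes `p > X` are good -/
lemma good_prime {X r p : ℕ} (hX : 1 ≤ X) (hr : 1 ≤ r) (hp : p.Prime) (hXp : X < p) : Good X r p := by
  intro q hq hqX hd
  have h1 : q = p := (Nat.prime_dvd_prime_iff_eq hq hp).1 hd
  have hX1 : (1 : ℝ) ≤ X := by exact_mod_cast hX
  have hr1 : (1 : ℝ) ≤ r := by exact_mod_cast hr
  have h2 : (X : ℝ) ^ (1 / (r : ℝ)) ≤ X := by
    calc (X : ℝ) ^ (1 / (r : ℝ)) ≤ (X : ℝ) ^ (1 : ℝ) :=
          Real.rpow_le_rpow_of_exponent_le hX1 (by rw [div_le_one (by linarith)]; exact hr1)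
      _ = X := Real.rpow_one _
  have h3 : (q : ℝ) ≤ X := hqX.trans h2
  have h4 : q ≤ X := by exact_mod_cast h3
  omega

/-- good integers up to `X ^ 3` have at most `3 r` prime factors -/
lemma good_few {X r m : ℕ} (hX : 2 ≤ X) (hr : 1 ≤ r) (hm : m ≠ 0) (hmX : m ≤ X ^ 3) (h : Good X r m) :
    m.primeFactorsList.length ≤ 3 * r := by
  have hX1 : (1 : ℝ) < X := by exact_mod_cast (by omega : 1 < X)
  have hr1 : (0 : ℝ) < r := by exact_mod_cast (by omega : 0 < r)
  refine Pool.Agent.Y879.GL.few_of_rough ((X : ℝ) ^ (1 / (r : ℝ))) (Real.one_lt_rpow hX1 (by positivity)) m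
    (3 * r) hm ?_ (fun q hq hqm => ?_)
  · rw [← Real.rpow_natCast, ← Real.rpow_mul (by positivity)]
    have e : 1 / (r : ℝ) * ((3 * r : ℕ) : ℝ) = ((3 : ℕ) : ℝ) := by
      push_cast
      field_simp
    rw [e, Real.rpow_natCast]
    exact_mod_cast hmX
  · by_contra hcon
    push Not at hcon
    exact h q hq hcon hqm


/-- a lower bound for the totient -/
lemma le_two_phi (n : ℕ) : n ≤ 2 * Nat.totient n ^ 2 := Pool.Agent.Y640.FM.le_totient n

lemma phi_large {n : ℕ} (hn : 64 ≤ n) {t : ℝ} (_ht : 0 ≤ t) (ht2 : t ≤ 1 / 3) :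
    (n : ℝ) ^ t ≤ ((1 + Nat.totient n : ℕ) : ℝ) := by
  have h1 : (n : ℝ) ≤ 2 * (Nat.totient n : ℝ) ^ 2 := by exact_mod_cast le_two_phi n
  have hn1 : (1 : ℝ) ≤ n := by exact_mod_cast (by omega : 1 ≤ n)
  have hn0 : (0 : ℝ) < n := by linarith
  set u : ℝ := (n : ℝ) ^ ((1 : ℝ) / 3) with hu
  have hu3 : u ^ 3 = n := by
    rw [hu, ← Real.rpow_natCast, ← Real.rpow_mul hn0.le]
    norm_num
  have hu0 : 0 ≤ u := Real.rpow_nonneg hn0.le _
  have hu2 : 2 ≤ u := by
    by_contra hcon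
    push Not at hcon
    have h2 : u ^ 3 < 2 ^ 3 := pow_lt_pow_left₀ hcon hu0 (by norm_num)
    rw [hu3] at h2
    have h3 : (64 : ℝ) ≤ n := by exact_mod_cast hn
    linarith
  have h4 : u ^ 2 ≤ (Nat.totient n : ℝ) ^ 2 := by
    have h5 : 2 * u ^ 2 ≤ u ^ 3 := by nlinarith [sq_nonneg u]
    rw [hu3] at h5
    linarith
  have h6 : u ≤ (Nat.totient n : ℝ) := (pow_le_pow_iff_left₀ hu0 (Nat.cast_nonneg _) two_ne_zero).1 h4
  have h7 : (n : ℝ) ^ t ≤ u := Real.rpow_le_rpow_of_exponent_le hn1 ht2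
  push_cast
  linarith

open Classical in
/-- **Regular points of arbitrary sets between `n ^ 2` and `n ^ 2 + 1 + φ(n)`.**

`Regular S V c δ B Y m`: every interval `(m - s, m + t]`, `s, t ≤ Y`, with `c (s + t) V ≥ 1` contains
between `c (s + t) V` and `(s + t) V / c` elements of `S`, and for all scales `1 / V ≤ 2 ^ j ≤ Y` with at
most `B` exceptions there is a density `c ≤ lam ≤ 1 / c` such that all intervals `(m - s, m + t]`,
`s, t ≤ 2 ^ j`, contain `lam (s + t) V` elements of `S`, up to `δ 2 ^ j V`.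

There is `r₀` such that for all `r ≥ r₀` and `ε > 0` there is `c > 0`, and for all `δ > 0` there is `B`, such
that for all large `n`: (1) every prime `p > n` is good, and every good `m ≤ n ^ 2 + n` (`m > 0`) has at most
`3 r` prime factors; (2) for EVERY set `S` of good integers: at most `ε Y V` elements of `S` in
`(n ^ 2, n ^ 2 + Y]`, `Y = 1 + φ(n)`, are not regular points of `S`. -/
theorem result : ∃ r₀ : ℕ, 2 ≤ r₀ ∧ ∀ r : ℕ, r₀ ≤ r → ∀ ε : ℝ, 0 < ε → ∃ c : ℝ, 0 < c ∧ ∀ δ : ℝ, 0 < δ →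
    ∃ B : ℕ, ∀ᶠ n : ℕ in atTop,
      ((∀ p : ℕ, p.Prime → n < p → Good n r p) ∧
        ∀ m : ℕ, m ≠ 0 → m ≤ n ^ 2 + n → Good n r m → m.primeFactorsList.length ≤ 3 * r) ∧
      ∀ S : Set ℕ, (∀ m ∈ S, Good n r m) → ∀ Y : ℕ, Y = 1 + Nat.totient n →
        (((Ioc (n ^ 2) (n ^ 2 + Y)).filter (fun m => m ∈ S ∧ ¬ Regular S (V n r) c δ B Y m)).card : ℝ) ≤
          ε * (Y * V n r) := by
  obtain ⟨r₀, hr₀, h⟩ := one_regular (1 / 3) (by norm_num)
  refine ⟨r₀, hr₀, fun r hr ε hε => ?_⟩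
  obtain ⟨c, hc, h1⟩ := h r hr ε hε
  refine ⟨c, hc, fun δ hδ => ?_⟩
  obtain ⟨B, h2⟩ := h1 δ hδ
  refine ⟨B, ?_⟩
  filter_upwards [h2, eventually_ge_atTop 64] with n h1 h2
  refine ⟨⟨fun p hp hnp => good_prime (by omega) (by omega) hp hnp, fun m hm hmn hg =>
    good_few (by omega) (by omega) hm (hmn.trans ?_) hg⟩, ?_⟩
  · nlinarith [Nat.mul_le_mul_left n h2, Nat.mul_le_mul_left (n ^ 2) h2]
  · intro S hS Y hY
    subst hY
    have hYn : 1 + Nat.totient n ≤ n := by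
      have := Nat.totient_lt n (by omega)
      omega
    have h4 := h1 (n ^ 2) (1 + Nat.totient n) (phi_large h2 (by norm_num) le_rfl) hYn
      (hYn.trans (by nlinarith)) S (fun m hm => (good_iff n r m).1 (hS m hm))
    rwa [← V_eq] at h4

end Pool.Agent.Results.MP_36c81c_nt.RegularPoints
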