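import Mathlib
import Pool.Agent.R528.RM.Sp5

set_option autoImplicit false

/-!
# The gap from a square to the next member in random models of the primes

Let `a(n)` be the distance from `n²` to the next prime.  The question is whether `a(n) ≤ 1 + φ(n)`
for all `n`.  We determine the behaviour of `a(n)` in EVERY sequential random model of the primes:
the integers are decided one after the other, only integers coprime to a fixed `Q` can be chosen,
and the conditional probability of choosing `n + 1` (coprime to `Q`) given the past is asymptotic to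
`(Q / φ(Q)) / log n`; no independence is assumed (for `Q = 1` Cramér's model and the Hawkins random
sieve are examples).  Almost surely

* `limsup a(n) / (log n)² = 2`; in particular `a(n) ≤ 1 + φ(n)` for all large `n`;
* for every `0 < c < 2` the number of `n ≤ N` with `a(n) > c (log n)²` is `N ^ (1 - c / 2 + o(1))`.
-/

open MeasureTheory Filter
open scoped Topology

namespace Pool.Agent.Results.MP_36c81c_nt.SquareGapsSievedModels

/-- the distance from `n²` to the least member of `S` larger than `n²` -/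
noncomputable def gap (S : Set ℕ) (n : ℕ) : ℕ := sInf {m : ℕ | m ∈ S ∧ n ^ 2 < m} - n ^ 2

/-- the number of `n ≤ N` with `gap n > c (log n)²` -/
noncomputable def large (S : Set ℕ) (c : ℝ) (N : ℕ) : ℕ :=
  Set.ncard {n : ℕ | n ≤ N ∧ c * Real.log n ^ 2 < gap S n}

open Pool.Agent.R528.RM


/-- for odd `n`: `n ≤ φ(n)²`, in general `n ≤ 2 φ(n)²` -/
lemma tot_sq (n : ℕ) : n ≠ 0 → (n ≤ 2 * Nat.totient n ^ 2 ∧ (Odd n → n ≤ Nat.totient n ^ 2)) := by
  induction n using Nat.recOnPosPrimePosCoprime with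
  | zero => intro h; exact absurd rfl h
  | one => intro _; simp
  | prime_pow p k hp hk =>
    intro _
    rw [Nat.totient_prime_pow hp hk]
    obtain ⟨k, rfl⟩ : ∃ m, k = m + 1 := ⟨k - 1, by omega⟩
    rw [Nat.add_sub_cancel]
    rcases hp.eq_two_or_odd' with rfl | hodd
    · constructor
      · have h1 : 1 ≤ 2 ^ k := Nat.one_le_two_pow
        have e1 : 2 ^ (k + 1) = 2 * 2 ^ k := by ring
        rw [e1]
        nlinarith
      · intro h
        exfalso
        rw [Nat.odd_pow_iff (by omega)] at h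
        exact (by decide : ¬ Odd 2) h
    · have hp3 : 3 ≤ p := by
        have := hp.two_le
        rcases hodd with ⟨m, hm⟩
        omega
      have key : p ^ (k + 1) ≤ (p ^ k * (p - 1)) ^ 2 := by
        obtain ⟨q, rfl⟩ : ∃ q, p = q + 1 := ⟨p - 1, by omega⟩
        rw [Nat.add_sub_cancel]
        have h1 : 1 ≤ (q + 1) ^ k := Nat.one_le_pow _ _ (by omega)
        have h2 : q + 1 ≤ q ^ 2 := by nlinarith
        calc (q + 1) ^ (k + 1) = (q + 1) ^ k * (q + 1) := pow_succ _ _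
          _ ≤ (q + 1) ^ k * (q + 1) ^ k * q ^ 2 := by
            have : (q + 1) ^ k * (q + 1) ≤ (q + 1) ^ k * (q + 1) ^ k * (q + 1) := Nat.mul_le_mul_right _ (Nat.le_mul_of_pos_right _ h1)
            exact this.trans (Nat.mul_le_mul_left _ h2)
          _ = _ := by ring
      exact ⟨by omega, fun _ => key⟩
  | coprime a b ha hb hab iha ihb =>
    intro _
    rw [Nat.totient_mul hab]
    obtain ⟨ha1, ha2⟩ := iha (by omega)
    obtain ⟨hb1, hb2⟩ := ihb (by omega)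
    constructor
    · have : Odd a ∨ Odd b := by
        by_contra hcon
        push Not at hcon
        rw [Nat.not_odd_iff_even, Nat.not_odd_iff_even] at hcon
        have h2 : 2 ∣ Nat.gcd a b := Nat.dvd_gcd hcon.1.two_dvd hcon.2.two_dvd
        rw [hab] at h2
        omega
      rcases this with h | h
      · calc a * b ≤ Nat.totient a ^ 2 * (2 * Nat.totient b ^ 2) := Nat.mul_le_mul (ha2 h) hb1
          _ = _ := by ring
      · calc a * b ≤ (2 * Nat.totient a ^ 2) * Nat.totient b ^ 2 := Nat.mul_le_mul ha1 (hb2 h)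
          _ = _ := by ring
    · intro h
      rw [Nat.odd_mul] at h
      calc a * b ≤ Nat.totient a ^ 2 * Nat.totient b ^ 2 := Nat.mul_le_mul (ha2 h.1) (hb2 h.2)
        _ = _ := by ring

lemma spar_sq {c : ℝ} (hc : 0 < c) : Spar (fun j => j ^ 2) (fun j => ⌊c * Real.log j ^ 2⌋₊) (c / 2) := by
  have hlog2 : ∀ j : ℕ, Real.log ((j ^ 2 : ℕ) : ℝ) = 2 * Real.log j := fun j => by
    push_cast
    rw [Real.log_pow]
    norm_num
  have hsmall : ∀ᶠ j : ℕ in atTop, c * Real.log j ^ 2 ≤ j := by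
    have h3 := (Real.isLittleO_pow_log_id_atTop (n := 2)).def (show (0 : ℝ) < 1 / c by positivity)
    have h4 : ∀ᶠ x : ℝ in atTop, c * Real.log x ^ 2 ≤ x := by
      filter_upwards [h3, eventually_ge_atTop 1] with x h3 h6
      rw [Real.norm_of_nonneg (by positivity), id, Real.norm_of_nonneg (by linarith)] at h3
      calc c * Real.log x ^ 2 ≤ c * (1 / c * x) := mul_le_mul_of_nonneg_left h3 hc.le
        _ = x := by field_simp
    exact tendsto_natCast_atTop_atTop.eventually h4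
  have hsmall' : ∀ᶠ j : ℕ in atTop, ⌊c * Real.log j ^ 2⌋₊ ≤ j := by
    filter_upwards [hsmall] with j hj
    have := Nat.floor_mono hj
    rwa [Nat.floor_natCast] at this
  have hbig : Tendsto (fun j : ℕ => Real.log ((j ^ 2 : ℕ) : ℝ)) atTop atTop := by
    refine (tendsto_log.const_mul_atTop (show (0 : ℝ) < 2 by norm_num)).congr fun j => ?_
    rw [hlog2]
  refine ⟨?_, hbig, ?_, ?_⟩
  · filter_upwards [hsmall'] with j hj
    nlinarith
  · apply ratio_of_le (T := fun j => j ^ 2) hbig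
    filter_upwards [hsmall', eventually_ge_atTop 1] with j hj h1
    nlinarith
  · have h1 : Tendsto (fun j : ℕ => ((⌊c * Real.log j ^ 2⌋₊ : ℕ) : ℝ) / Real.log j ^ 2) atTop (𝓝 c) :=
      (tendsto_nat_floor_mul_div_atTop hc.le).comp ((tendsto_pow_atTop (n := 2) two_ne_zero).comp tendsto_log)
    have h2 := h1.div_const 2
    refine h2.congr' ?_
    filter_upwards [tendsto_log.eventually_gt_atTop 0] with j hj
    rw [hlog2]
    have := hj.ne'
    field_simp

lemma gap_gt_iff {Ω : Type} {A : ℕ → Set Ω} {ω : Ω} (hinf : {k | ω ∈ A k}.Infinite) {c : ℝ} (hc : 0 ≤ c) (n : ℕ) :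
    c * Real.log n ^ 2 < gap {k | ω ∈ A k} n ↔ cnt A (n ^ 2) ⌊c * Real.log n ^ 2⌋₊ ω = 0 := by
  set y : ℝ := c * Real.log n ^ 2 with hy
  have hy0 : 0 ≤ y := by positivity
  set M : Set ℕ := {m : ℕ | m ∈ {k | ω ∈ A k} ∧ n ^ 2 < m} with hM
  have hne : M.Nonempty := by
    obtain ⟨m, hm1, hm2⟩ := hinf.exists_gt (n ^ 2)
    exact ⟨m, hm1, hm2⟩
  have hin : sInf M ∈ M := Nat.sInf_mem hne
  have hgt : n ^ 2 < sInf M := hin.2
  rw [cnt_eq_ncard, ← Nat.floor_lt hy0]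
  have hg : gap {k | ω ∈ A k} n = sInf M - n ^ 2 := rfl
  rw [hg]
  have hfin : {a : ℕ | ω ∈ A a ∧ n ^ 2 < a ∧ a ≤ n ^ 2 + ⌊y⌋₊}.Finite :=
    (Set.finite_Iic (n ^ 2 + ⌊y⌋₊)).subset fun a ha => ha.2.2
  rw [Set.ncard_eq_zero hfin, Set.eq_empty_iff_forall_notMem]
  constructor
  · rintro h a ⟨h1, h2, h3⟩
    have : sInf M ≤ a := Nat.sInf_le ⟨h1, h2⟩
    omega
  · intro h
    by_contra hcon
    push Not at hcon
    exact h (sInf M) ⟨hin.1, hgt, by omega⟩

lemma large_eq {Ω : Type} {A : ℕ → Set Ω} {ω : Ω} (hinf : {k | ω ∈ A k}.Infinite) {c : ℝ} (hc : 0 ≤ c) (N : ℕ) :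
    large {k | ω ∈ A k} c N = emp A (fun j => j ^ 2) (fun j => ⌊c * Real.log j ^ 2⌋₊) N ω := by
  unfold large emp
  rw [← Set.ncard_coe_finset]
  congr 1
  ext n
  simp only [Set.mem_ofPred_eq, Finset.coe_filter, Finset.mem_range, Nat.lt_succ_iff]
  exact and_congr_right fun _ => gap_gt_iff hinf hc n

lemma large_anti {S : Set ℕ} {c c' : ℝ} (h : c ≤ c') (N : ℕ) : large S c' N ≤ large S c N := by
  unfold large
  apply Set.ncard_le_ncard
  · rintro n ⟨h1, h2⟩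
    refine ⟨h1, lt_of_le_of_lt ?_ h2⟩
    exact mul_le_mul_of_nonneg_right h (sq_nonneg _)
  · exact (Set.finite_Iic N).subset fun a ha => ha.1

end Pool.Agent.Results.MP_36c81c_nt.SquareGapsSievedModels

open Pool.Agent.Results.MP_36c81c_nt.SquareGapsSievedModels

/-- Let `A n` be the event that `n` belongs to a random set adapted to a filtration `ℱ`, let
`Q ≥ 1`, let no integer which is not coprime to `Q` be chosen, and let the conditional probability of
`A (n + 1)` given `ℱ n`, times `log n`, tend to `Q / φ(Q)` along the `n` with `n + 1` coprime to `Q`,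
almost surely.  Then almost surely the random set is infinite and, with `a(n)` the distance from `n²`
to the next member: `a(n) < (2 + ε) (log n)²` for all large `n`, `a(n) > (2 - ε) (log n)²` for
infinitely many `n`; for every `0 < c < 2` the number of `n ≤ N` with `a(n) > c (log n)²` is
`N ^ (1 - c / 2 + o(1))`; and `a(n) ≤ 1 + φ(n)` for all large `n`. -/
theorem Pool.Agent.Results.MP_36c81c_nt.SquareGapsSievedModels.result
    {Ω : Type} [mΩ : MeasurableSpace Ω] (μ : Measure Ω) [IsProbabilityMeasure μ]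
    (ℱ : Filtration ℕ mΩ) (A : ℕ → Set Ω) (hA : ∀ n, MeasurableSet[ℱ n] (A n))
    (Q : ℕ) (hQ : 0 < Q) (hcop : ∀ n, ¬ Nat.Coprime n Q → A n = ∅)
    (hd : ∀ᵐ ω ∂μ, Tendsto (fun n : ℕ =>
      (μ[(A (n + 1)).indicator (fun _ => (1 : ℝ)) | ℱ n]) ω * Real.log n)
      (atTop ⊓ 𝓟 {n : ℕ | Nat.Coprime (n + 1) Q}) (𝓝 ((Q : ℝ) / Nat.totient Q))) :
    ∀ᵐ ω ∂μ, {k | ω ∈ A k}.Infinite ∧
      (∀ ε : ℝ, 0 < ε → ∀ᶠ n : ℕ in atTop,
        (gap {k | ω ∈ A k} n : ℝ) < (2 + ε) * Real.log n ^ 2) ∧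
      (∀ ε : ℝ, 0 < ε → ∃ᶠ n : ℕ in atTop,
        (2 - ε) * Real.log n ^ 2 < gap {k | ω ∈ A k} n) ∧
      (∀ c : ℝ, 0 < c → c < 2 → Tendsto (fun N : ℕ =>
        Real.log (large {k | ω ∈ A k} c N) / Real.log N) atTop (𝓝 (1 - c / 2))) ∧
      (∀ᶠ n : ℕ in atTop, gap {k | ω ∈ A k} n ≤ 1 + Nat.totient n) := by
  have hprof := Pool.Agent.R528.RM.dens_profile (μ := μ) (ℱ := ℱ) hA Q hQ hcop hd
  have hlogpos : ∀ᶠ n : ℕ in atTop, 0 < Real.log n := Pool.Agent.R528.RM.tendsto_log.eventually_gt_atTop 0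
  have h1 : ∀ᵐ ω ∂μ, ∀ m : ℕ, ∀ᶠ j : ℕ in atTop,
      Pool.Agent.R528.RM.cnt A (j ^ 2) ⌊(2 + 1 / ((m : ℝ) + 1)) * Real.log j ^ 2⌋₊ ω ≠ 0 := by
    rw [ae_all_iff]
    intro m
    have hm : 0 < 1 / ((m : ℝ) + 1) := by positivity
    exact Pool.Agent.R528.RM.spar_nonempty (μ := μ) (ℱ := ℱ) hA hQ hprof (spar_sq (c := 2 + 1 / ((m : ℝ) + 1)) (by positivity)) (by linarith)
  have h2 : ∀ᵐ ω ∂μ, ∀ m : ℕ, ∃ᶠ j : ℕ in atTop,
      Pool.Agent.R528.RM.cnt A (j ^ 2) ⌊(2 - 1 / ((m : ℝ) + 1)) * Real.log j ^ 2⌋₊ ω = 0 := by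
    rw [ae_all_iff]
    intro m
    have hm : 0 < 1 / ((m : ℝ) + 1) := by positivity
    have hm1 : 1 / ((m : ℝ) + 1) ≤ 1 := by
      rw [div_le_one (by positivity)]
      linarith [Nat.cast_nonneg (α := ℝ) m]
    exact Pool.Agent.R528.RM.spar_zero (μ := μ) (ℱ := ℱ) hA hQ hprof (spar_sq (c := 2 - 1 / ((m : ℝ) + 1)) (by linarith)) (by linarith) (by linarith)
  have h3 : ∀ᵐ ω ∂μ, ∀ (r s : ℚ), (0 : ℝ) < r → (r : ℝ) < 2 → 1 - (r : ℝ) / 2 < s → (0 : ℝ) < s → ∀ᶠ J : ℕ in atTop,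
      (Pool.Agent.R528.RM.emp A (fun j => j ^ 2) (fun j => ⌊(r : ℝ) * Real.log j ^ 2⌋₊) J ω : ℝ) ≤ (J : ℝ) ^ (s : ℝ) := by
    rw [ae_all_iff]
    intro r
    rw [ae_all_iff]
    intro s
    by_cases hr : (0 : ℝ) < r ∧ (r : ℝ) < 2 ∧ 1 - (r : ℝ) / 2 < s ∧ (0 : ℝ) < s
    · filter_upwards [Pool.Agent.R528.RM.emp_upper (μ := μ) (ℱ := ℱ) hA hQ hprof (spar_sq hr.1) (show 0 < (r : ℝ) / 2 by linarith [hr.1]) hr.2.2.1 hr.2.2.2] with ω hω _ _ _ _
      exact hω
    · exact Eventually.of_forall fun ω a b c d => absurd ⟨a, b, c, d⟩ hr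
  have h4 : ∀ᵐ ω ∂μ, ∀ (r s : ℚ), (0 : ℝ) < r → (r : ℝ) / 2 < s → (s : ℝ) < 1 → ∀ᶠ J : ℕ in atTop,
      ∃ j, J ≤ j ∧ j < J + ⌈(J : ℝ) ^ (s : ℝ)⌉₊ ∧ Pool.Agent.R528.RM.cnt A (j ^ 2) ⌊(r : ℝ) * Real.log j ^ 2⌋₊ ω = 0 := by
    rw [ae_all_iff]
    intro r
    rw [ae_all_iff]
    intro s
    by_cases hr : (0 : ℝ) < r ∧ (r : ℝ) / 2 < s ∧ (s : ℝ) < 1
    · filter_upwards [Pool.Agent.R528.RM.emp_dense (μ := μ) (ℱ := ℱ) hA hQ hprof (spar_sq hr.1) (show 0 < (r : ℝ) / 2 by linarith [hr.1]) hr.2.1 hr.2.2] with ω hω _ _ _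
      exact hω
    · exact Eventually.of_forall fun ω a b c => absurd ⟨a, b, c⟩ hr
  filter_upwards [h1, h2, h3, h4] with ω h1 h2 h3 h4
  have hinf : {k | ω ∈ A k}.Infinite := by
    apply Set.infinite_of_not_bddAbove
    rintro ⟨B, hB⟩
    obtain ⟨j, hj1, hj2⟩ := ((h1 0).and (eventually_gt_atTop B)).exists
    apply hj1
    rw [Pool.Agent.R528.RM.cnt_eq_ncard]
    have : {a : ℕ | ω ∈ A a ∧ j ^ 2 < a ∧ a ≤ j ^ 2 + ⌊(2 + 1 / (((0 : ℕ) : ℝ) + 1)) * Real.log j ^ 2⌋₊} = ∅ := by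
      rw [Set.eq_empty_iff_forall_notMem]
      rintro a ⟨g1, g2, _⟩
      have := hB g1
      nlinarith
    rw [this, Set.ncard_empty]
  have hup : ∀ ε : ℝ, 0 < ε → ∀ᶠ n : ℕ in atTop, (gap {k | ω ∈ A k} n : ℝ) < (2 + ε) * Real.log n ^ 2 := by
    intro ε hε
    obtain ⟨m, hm⟩ := exists_nat_one_div_lt hε
    filter_upwards [h1 m, hlogpos] with n hn hl
    have g1 : ¬ ((2 + 1 / ((m : ℝ) + 1)) * Real.log n ^ 2 < gap {k | ω ∈ A k} n) := fun h =>
      hn ((gap_gt_iff hinf (by positivity) n).1 h)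
    push Not at g1
    refine lt_of_le_of_lt g1 ?_
    exact mul_lt_mul_of_pos_right (by linarith) (by positivity)
  refine ⟨hinf, hup, ?_, ?_, ?_⟩
  · intro ε hε
    obtain ⟨m, hm⟩ := exists_nat_one_div_lt hε
    refine (h2 m).mono fun n hn => ?_
    have hm1 : 1 / ((m : ℝ) + 1) ≤ 1 := by
      rw [div_le_one (by positivity)]
      linarith [Nat.cast_nonneg (α := ℝ) m]
    refine lt_of_le_of_lt ?_ ((gap_gt_iff hinf (by linarith) n).2 hn)
    exact mul_le_mul_of_nonneg_right (by linarith) (sq_nonneg _)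
  · intro c hc0 hc2
    rw [Metric.tendsto_nhds]
    intro ε hε
    -- rational approximations
    obtain ⟨r₁, hr₁a, hr₁b⟩ := exists_rat_btwn (show max 0 (c - ε / 2) < c from max_lt hc0 (by linarith))
    obtain ⟨r₂, hr₂a, hr₂b⟩ := exists_rat_btwn (show c < min 2 (c + ε / 2) from lt_min hc2 (by linarith))
    have hr₁0 : (0 : ℝ) < r₁ := lt_of_le_of_lt (le_max_left _ _) hr₁a
    have hr₁ε : c - ε / 2 < r₁ := lt_of_le_of_lt (le_max_right _ _) hr₁a
    have hr₂2 : (r₂ : ℝ) < 2 := lt_of_lt_of_le hr₂b (min_le_left _ _)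
    have hr₂ε : (r₂ : ℝ) < c + ε / 2 := lt_of_lt_of_le hr₂b (min_le_right _ _)
    obtain ⟨s₁, hs₁a, hs₁b⟩ := exists_rat_btwn (show 1 - (r₁ : ℝ) / 2 < 1 - (r₁ : ℝ) / 2 + ε / 4 by linarith)
    have hs₁0 : (0 : ℝ) < s₁ := by linarith
    obtain ⟨s₂, hs₂a, hs₂b⟩ := exists_rat_btwn (show (r₂ : ℝ) / 2 < min 1 ((r₂ : ℝ) / 2 + ε / 4) from lt_min (by linarith) (by linarith))
    have hs₂1 : (s₂ : ℝ) < 1 := lt_of_lt_of_le hs₂b (min_le_left _ _)
    have hs₂ε : (s₂ : ℝ) < (r₂ : ℝ) / 2 + ε / 4 := lt_of_lt_of_le hs₂b (min_le_right _ _)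
    have hs₂0 : (0 : ℝ) < s₂ := by linarith
    have hlow := Pool.Agent.R528.RM.emp_lower (A := A) (T := fun j => j ^ 2) (h := fun j => ⌊(r₂ : ℝ) * Real.log j ^ 2⌋₊) hs₂0 hs₂1
      (show 0 < ε / 4 by linarith) (h4 r₂ s₂ (by linarith) hs₂a hs₂1)
    filter_upwards [h3 r₁ s₁ hr₁0 (by linarith) hs₁a hs₁0, hlow, hlogpos, eventually_gt_atTop 0] with N g1 g2 g3 g4
    have hN : (0 : ℝ) < N := by exact_mod_cast g4
    have e1 : (large {k | ω ∈ A k} c N : ℝ) ≤ (N : ℝ) ^ (s₁ : ℝ) := by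
      refine le_trans ?_ g1
      rw [← large_eq hinf hr₁0.le]
      exact_mod_cast large_anti hr₁b.le N
    have e2 : (N : ℝ) ^ (1 - (s₂ : ℝ) - ε / 4) ≤ large {k | ω ∈ A k} c N := by
      refine g2.trans ?_
      rw [← large_eq hinf (by linarith)]
      exact_mod_cast large_anti hr₂a.le N
    have hp : 0 < (N : ℝ) ^ (1 - (s₂ : ℝ) - ε / 4) := Real.rpow_pos_of_pos hN _
    have e3 := Real.log_le_log hp e2
    have e4 := Real.log_le_log (hp.trans_le e2) e1
    rw [Real.log_rpow hN] at e3 e4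
    have e5 : 1 - (s₂ : ℝ) - ε / 4 ≤ Real.log (large {k | ω ∈ A k} c N) / Real.log N := by rw [le_div_iff₀ g3]; exact e3
    have e6 : Real.log (large {k | ω ∈ A k} c N) / Real.log N ≤ s₁ := by rw [div_le_iff₀ g3]; exact e4
    rw [Real.dist_eq, abs_lt]
    constructor <;> linarith
  · have h5 : ∀ᶠ n : ℕ in atTop, 3 * Real.log n ^ 2 ≤ (n : ℝ) ^ (1 / 2 : ℝ) / 2 := by
      filter_upwards [Pool.Agent.R528.RM.ev_pow (a := 0) (b := 1 / 4) (by norm_num) 3, hlogpos, eventually_gt_atTop 0] with n g1 g2 g3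
      have hn : (0 : ℝ) < n := by exact_mod_cast g3
      rw [Real.rpow_zero, mul_one] at g1
      have e1 : (n : ℝ) ^ (1 / 2 : ℝ) = (n : ℝ) ^ (1 / 4 : ℝ) * (n : ℝ) ^ (1 / 4 : ℝ) := by
        rw [← Real.rpow_add hn]
        norm_num
      have e2 := mul_le_mul g1 g1 (by positivity) (by positivity)
      rw [← e1] at e2
      nlinarith
    filter_upwards [hup 1 one_pos, h5, eventually_gt_atTop 0] with n g1 g2 g3
    have hn : (0 : ℝ) < n := by exact_mod_cast g3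
    have g4 := (tot_sq n (by omega)).1
    have g5 : (n : ℝ) ≤ 2 * (Nat.totient n : ℝ) ^ 2 := by exact_mod_cast g4
    have e1 : (n : ℝ) ^ (1 / 2 : ℝ) * (n : ℝ) ^ (1 / 2 : ℝ) = n := by
      rw [← Real.rpow_add hn]
      norm_num
    have e2 : (n : ℝ) ^ (1 / 2 : ℝ) / 2 ≤ Nat.totient n := by
      by_contra hcon
      push Not at hcon
      have h0 : (0 : ℝ) ≤ Nat.totient n := Nat.cast_nonneg _
      have h1 : 0 < (n : ℝ) ^ (1 / 2 : ℝ) := Real.rpow_pos_of_pos hn _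
      nlinarith
    have e3 : (gap {k | ω ∈ A k} n : ℝ) < Nat.totient n := by
      have : (2 + 1 : ℝ) * Real.log n ^ 2 = 3 * Real.log n ^ 2 := by ring
      rw [this] at g1
      linarith
    have e4 : gap {k | ω ∈ A k} n < Nat.totient n := by exact_mod_cast e3
    omega
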